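import Mathlib
import Pool.Agent.Q23.LineGroupC

/-!
# MP_27ef7a_al: the answer to Q1 is no

There is a finitely generated soluble group `G` in which *every* subgroup `⟨x, x^y⟩` has a
nilpotent normal subgroup with cyclic quotient, while `G` has no nilpotent normal subgroup with
polycyclic-by-finite quotient.
-/

namespace Pool.Agent.Results.MP_27ef7a_al.Counterexample

/-- `G` is polycyclic: there is a finite chain `1 = H 0 ≤ H 1 ≤ ... ≤ H n = G` of subgroups such
that each `H i` is normal in `H (i + 1)` and the quotient `H (i + 1) / H i` is cyclic, generated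
by the coset of some `a ∈ H (i + 1)`. -/
def Polycyclic (G : Type) [Group G] : Prop :=
  ∃ (n : ℕ) (H : ℕ → Subgroup G), H 0 = ⊥ ∧ H n = ⊤ ∧ ∀ i < n, H i ≤ H (i + 1) ∧
    (∀ x ∈ H (i + 1), ∀ y ∈ H i, x * y * x⁻¹ ∈ H i) ∧
    ∃ a ∈ H (i + 1), ∀ x ∈ H (i + 1), ∃ k : ℤ, (a ^ k)⁻¹ * x ∈ H i

/-- The class `𝔓𝔉`: `G` has a polycyclic normal subgroup of finite index. -/
def PolycyclicByFinite (G : Type) [Group G] : Prop :=
  ∃ K : Subgroup G, K.Normal ∧ K.FiniteIndex ∧ Polycyclic K

/-- The class `𝔑(𝔓𝔉)`: `G` has a nilpotent normal subgroup `K` such that `G / K` is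
polycyclic-by-finite. -/
def NilpotentByPF (G : Type) [Group G] : Prop :=
  ∃ (K : Subgroup G) (_ : K.Normal), Group.IsNilpotent K ∧ PolycyclicByFinite (G ⧸ K)

/-- `G` has a soluble normal subgroup of finite index. -/
def SolubleByFinite (G : Type) [Group G] : Prop :=
  ∃ K : Subgroup G, K.Normal ∧ K.FiniteIndex ∧ Group.IsSolvable K

/-- The class `(𝔛, ∞)*`: every infinite subset of `G` contains two distinct elements `x`, `y`
such that `⟨x, x^y⟩` lies in `𝔛`, where `x^y = y⁻¹ x y`. -/
def InfStar (X : ∀ (H : Type) [Group H], Prop) (G : Type) [Group G] : Prop :=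
  ∀ S : Set G, S.Infinite → ∃ x ∈ S, ∃ y ∈ S, x ≠ y ∧
    X (Subgroup.closure ({x, y⁻¹ * x * y} : Set G))

open Q23.Line DihedralGroup
open scoped commutatorElement

lemma polycyclic_torsion {G : Type} [Group G] (hG : Polycyclic G) (T : Subgroup G)
    (hT : ∀ x ∈ T, IsOfFinOrder x) : Finite T := by
  obtain ⟨n, H, h0, hn, hstep⟩ := hG
  have key : ∀ i ≤ n, Finite (T ⊓ H i : Subgroup G) := by
    intro i
    induction i with
    | zero => intro _; rw [h0, inf_bot_eq]; infer_instance
    | succ i ih =>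
      intro hi
      have hfin := ih (by omega)
      obtain ⟨hle, hnorm, a, ha, hcyc⟩ := hstep i (by omega)
      have hN : ((H i).subgroupOf (H (i + 1))).Normal := ⟨by
        rintro ⟨y, hy⟩ hy' ⟨x, hx⟩
        exact hnorm x hx y hy'⟩
      let f : (T ⊓ H (i + 1) : Subgroup G) →* (H (i + 1)) ⧸ (H i).subgroupOf (H (i + 1)) :=
        (QuotientGroup.mk' _).comp (Subgroup.inclusion inf_le_right)
      have hcycQ : IsCyclic ((H (i + 1)) ⧸ (H i).subgroupOf (H (i + 1))) := by
        refine ⟨⟨QuotientGroup.mk ⟨a, ha⟩, ?_⟩⟩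
        intro q
        obtain ⟨⟨x, hx⟩, rfl⟩ := QuotientGroup.mk_surjective q
        obtain ⟨k, hk⟩ := hcyc x hx
        refine ⟨k, ?_⟩
        show (QuotientGroup.mk (⟨a, ha⟩ : H (i + 1)) : (H (i + 1)) ⧸ (H i).subgroupOf (H (i + 1))) ^ k
          = _
        rw [← QuotientGroup.mk_zpow, QuotientGroup.eq]
        exact hk
      apply finite_of_ker_range f
      · have hinj : Function.Injective (fun x : f.ker =>
            (⟨x.1.1, x.1.2.1, by
              have h1 : f x.1 = 1 := x.2
              have h2 := (QuotientGroup.eq_one_iff _).1 h1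
              exact h2⟩ : (T ⊓ H i : Subgroup G))) := by
          intro x y hxy
          apply Subtype.ext
          apply Subtype.ext
          have h3 := congrArg (fun z : (T ⊓ H i : Subgroup G) => (z : G)) hxy
          exact h3
        exact Finite.of_injective _ hinj
      · have : IsCyclic f.range := inferInstance
        apply finite_cyclic_torsion
        rintro ⟨_, x, rfl⟩
        rw [← Submonoid.isOfFinOrder_coe]
        apply MonoidHom.isOfFinOrder
        rw [← Submonoid.isOfFinOrder_coe]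
        exact hT _ x.2.1
  have h1 := key n le_rfl
  rw [hn, inf_top_eq] at h1
  exact h1

lemma pf_torsion {G : Type} [Group G] (hG : PolycyclicByFinite G) (T : Subgroup G)
    (hT : ∀ x ∈ T, IsOfFinOrder x) : Finite T := by
  obtain ⟨N, hN, hfi, hpc⟩ := hG
  let f : T →* G ⧸ N := (QuotientGroup.mk' N).comp T.subtype
  apply finite_of_ker_range f
  · have hfin : Finite (T.subgroupOf N) := by
      apply polycyclic_torsion hpc
      rintro ⟨x, hx⟩ hxT
      rw [← Submonoid.isOfFinOrder_coe]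
      exact hT x hxT
    have hinj : Function.Injective (fun x : f.ker =>
        (⟨⟨x.1.1, by
          have h1 : f x.1 = 1 := x.2
          exact (QuotientGroup.eq_one_iff _).1 h1⟩, x.1.2⟩ : T.subgroupOf N)) := by
      intro x y hxy
      apply Subtype.ext
      apply Subtype.ext
      exact congrArg (fun z => (z.1.1 : G)) hxy
    exact Finite.of_injective _ hinj
  · exact inferInstance

lemma polycyclic_of_cyclic {G : Type} [Group G] [IsCyclic G] : Polycyclic G := by
  obtain ⟨g, hg⟩ := IsCyclic.exists_generator (α := G)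
  refine ⟨1, fun i => if i = 0 then ⊥ else ⊤, rfl, rfl, ?_⟩
  intro i hi
  obtain rfl : i = 0 := by omega
  refine ⟨by simp, ?_, g, by simp, ?_⟩
  · intro x _ y hy
    have : y = 1 := by simpa using hy
    subst this
    simp
  · intro x _
    obtain ⟨k, hk⟩ := hg x
    refine ⟨k, ?_⟩
    have hk' : g ^ k = x := hk
    simp [hk']

lemma pf_of_cyclic {G : Type} [Group G] [IsCyclic G] : PolycyclicByFinite G :=
  ⟨⊤, inferInstance, inferInstance, polycyclic_of_cyclic⟩

lemma all_pairs (x y : G) :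
    NilpotentByPF (Subgroup.closure ({x, y⁻¹ * x * y} : Set G)) := by
  obtain ⟨B, M, hM, hB⟩ := strip x y
  set H := Subgroup.closure ({x, y⁻¹ * x * y} : Set G)
  refine ⟨(pr.comp H.subtype).ker, inferInstance, ?_, ?_⟩
  · have := Q_nilp hM
    let φ : (pr.comp H.subtype).ker →* Q B :=
      { toFun := fun h => ⟨((h.1 : G) : W).left, (hB h.1 h.1.2).1⟩
        map_one' := rfl
        map_mul' := by
          intro a b
          apply Subtype.ext
          have ha : ((a.1 : G) : W).right = 1 := a.2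
          show (((a.1 : G) : W) * ((b.1 : G) : W)).left =
            ((a.1 : G) : W).left * ((b.1 : G) : W).left
          rw [SemidirectProduct.mul_left, ha, map_one]
          rfl }
    have hinj : Function.Injective φ := by
      intro a b hab
      have ha : ((a.1 : G) : W).right = 1 := a.2
      have hb : ((b.1 : G) : W).right = 1 := b.2
      have h1 : ((a.1 : G) : W).left = ((b.1 : G) : W).left := congrArg Subtype.val hab
      apply Subtype.ext
      apply Subtype.ext
      apply Subtype.ext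
      exact SemidirectProduct.ext h1 (ha.trans hb.symm)
    exact Subgroup.isNilpotent_of_ker_le_center φ
      (by rw [(MonoidHom.ker_eq_bot_iff _).2 hinj]; exact bot_le)
  · have h1 : (pr.comp H.subtype).range ≤ Subgroup.zpowers (x : W).right := by
      rintro _ ⟨h, rfl⟩
      exact (hB h.1 h.2).2
    have h2 : IsCyclic (pr.comp H.subtype).range := Subgroup.isCyclic_of_le h1
    have e := QuotientGroup.quotientKerEquivRange (pr.comp H.subtype)
    have h3 : IsCyclic (H ⧸ (pr.comp H.subtype).ker) :=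
      isCyclic_of_injective e.toMonoidHom e.injective
    exact pf_of_cyclic

lemma torsion_ker (x : G) (hx : pr x = 1) : IsOfFinOrder x := by
  obtain ⟨F, hF⟩ := G_le_WFin x.2
  obtain ⟨M, hM⟩ := narrow_line F 0
  have h1 : (x : W).left ∈ Q {g | ∃ f ∈ F, ∃ k : ℤ, g = f + k • (0 : L)} := by
    refine Q_mono ?_ hF
    intro f hf
    exact ⟨f, hf, 0, by simp⟩
  rw [isOfFinOrder_iff_pow_eq_one]
  refine ⟨2 ^ (M + 1), by positivity, ?_⟩
  apply Subtype.ext
  have : ((x ^ (2 ^ (M + 1)) : G) : W) = (x : W) ^ (2 ^ (M + 1)) := by simp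
  have hx' : (x : W).right = 1 := hx
  rw [this, left_pow_of_right_one _ hx', Q_pow hM h1, map_one]
  rfl

lemma not_class : ¬ NilpotentByPF G := by
  rintro ⟨K, hK, hnil, hpf⟩
  obtain ⟨m, hm⟩ := (Subgroup.isNilpotent_iff_lowerCentralSeries K).1 hnil
  -- the image of the torsion part is finite
  have hfin : Finite ((pr.ker).map (QuotientGroup.mk' K)) := by
    apply pf_torsion hpf
    rintro _ ⟨x, hx, rfl⟩
    exact MonoidHom.isOfFinOrder _ (torsion_ker x hx)
  let U : L → G := fun h => ⟨SemidirectProduct.inl (u h), u_mem_G h⟩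
  have hU : ∀ h, pr (U h) = 1 := fun h => by
    show (SemidirectProduct.inl (u h) : W).right = 1
    simp
  let ψ : ℕ → (pr.ker).map (QuotientGroup.mk' K) := fun j =>
    ⟨QuotientGroup.mk' K (U ((j : ℤ), 0)), ⟨_, hU _, rfl⟩⟩
  obtain ⟨i, j, hij, hψ⟩ := Finite.exists_ne_map_eq_of_infinite ψ
  have h1 : (U ((i : ℤ), 0))⁻¹ * U ((j : ℤ), 0) ∈ K := by
    rw [← QuotientGroup.eq]
    exact congrArg Subtype.val hψ
  let C : G := ⟨SemidirectProduct.inr (Multiplicative.ofAdd (-(i : ℤ), 0)), inr_mem_G _⟩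
  have hconj : ∀ h : L, C * U h * C⁻¹ = U (h + (-(i : ℤ), 0)) := by
    intro h
    apply Subtype.ext
    exact conj_u _ _
  set c : L := ((j : ℤ) - i, 0) with hc
  have h2 : (U 0)⁻¹ * U c ∈ K := by
    have h3 := hK.conj_mem _ h1 C
    have h4 : C * ((U ((i : ℤ), 0))⁻¹ * U ((j : ℤ), 0)) * C⁻¹ =
        (C * U ((i : ℤ), 0) * C⁻¹)⁻¹ * (C * U ((j : ℤ), 0) * C⁻¹) := by group
    rw [h4, hconj, hconj] at h3
    have e1 : (((i : ℤ), 0) : L) + (-(i : ℤ), 0) = 0 := by ext <;> simp
    have e2 : (((j : ℤ), 0) : L) + (-(i : ℤ), 0) = c := by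
      rw [hc]; ext <;> simp [sub_eq_add_neg]
    rwa [e1, e2] at h3
  have hc0 : c ≠ 0 := by
    intro h
    have : (j : ℤ) - i = 0 := congrArg Prod.fst h
    exact hij (by omega)
  have hcd : ∀ n, c ≠ d n := by
    intro n h
    have : (0 : ℤ) = ((n : ℤ) + 1) ^ 2 := congrArg Prod.snd h
    have h3 : (0 : ℤ) < ((n : ℤ) + 1) ^ 2 := by positivity
    omega
  have h3 : ⁅U (d (m + 2)), (U 0)⁻¹ * U c⁆ ∈ K := by
    rw [commutatorElement_def]
    exact mul_mem (hK.conj_mem _ h2 _) (inv_mem h2)
  have h4 := iter_mem_lcs' K _ _ h3 h2 m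
  rw [hm, Subgroup.mem_bot] at h4
  have h5 : iter (SemidirectProduct.inl (u (d (m + 2))) : W)
      (SemidirectProduct.inl ((u 0)⁻¹ * u c)) (m + 1) = 1 := by
    have := congrArg G.subtype h4
    rw [iter_map, map_one] at this
    rw [map_mul, map_inv]
    exact this
  rw [← iter_map, ← map_one (SemidirectProduct.inl : P →* W)] at h5
  have h6 := congrArg (ev (m + 2) 0) (SemidirectProduct.inl_injective h5)
  rw [iter_map, map_one, u_d_ev, map_mul, map_inv, u_zero_ev, u_other_ev _ _ hc0 (hcd _)] at h6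
  have h7 : ((sr 0 : DihedralGroup (2 ^ (m + 2)))⁻¹ * 1) = sr 0 := by
    rw [mul_one]; rfl
  rw [h7, iter_dih, one_def] at h6
  have h8 : (2 : ZMod (2 ^ (m + 2))) ^ (m + 1) * (0 - 1) = 0 := by
    injection h6
  have h9 : ((2 ^ (m + 1) : ℕ) : ZMod (2 ^ (m + 2))) = 0 := by
    have : ((2 ^ (m + 1) : ℕ) : ZMod (2 ^ (m + 2))) =
      - ((2 : ZMod (2 ^ (m + 2))) ^ (m + 1) * (0 - 1)) := by push_cast; ring
    rw [this, h8, neg_zero]
  rw [ZMod.natCast_eq_zero_iff] at h9
  have h10 := Nat.le_of_dvd (by positivity) h9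
  have h11 : 2 ^ (m + 1) < 2 ^ (m + 2) := Nat.pow_lt_pow_right (by norm_num) (by omega)
  omega

theorem result : ∃ (G : Type) (_ : Group G), Group.FG G ∧ Group.IsSolvable G ∧
    SolubleByFinite G ∧ InfStar NilpotentByPF G ∧
    (∀ x y : G, NilpotentByPF (Subgroup.closure ({x, y⁻¹ * x * y} : Set G))) ∧
    ¬ NilpotentByPF G := by
  refine ⟨G, inferInstance, inferInstance, inferInstance, ?_, ?_, all_pairs, not_class⟩
  · exact ⟨⊤, inferInstance, inferInstance, inferInstance⟩
  · intro S hS
    obtain ⟨x, hx, y, hy, hxy⟩ := hS.nontrivial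
    exact ⟨x, hx, y, hy, hxy, all_pairs x y⟩

end Pool.Agent.Results.MP_27ef7a_al.Counterexample
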